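import Pool.Agent.Lib.MP_ef816a_al.Core

open Pool.Agent.Lib.MP_ef816a_al

namespace Pool.Agent.Results.MP_ef816a_al.NoAbelianRep

/-- The algebra has no group representation over any infinite abelian group,
in particular none over the integers. -/
theorem result (G : Type*) [AddCommGroup G] [Infinite G] :
    ¬ ∃ (S : ZMod 5 → Set G) (col : G → G → ZMod 5),
      (∀ k, (0 : G) ∉ S k) ∧ (∀ x : G, x ≠ 0 → ∃! k, x ∈ S k) ∧ (∀ k, -S k = S k) ∧
      (∀ u v : G, u ≠ v → v - u ∈ S (col u v)) ∧ IsRep col := by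
  rintro ⟨S, col, h0, hex, hsym, hcol, hrep⟩
  have uniq : ∀ x k l, x ∈ S k → x ∈ S l → k = l := fun x k l hk hl =>
    (hex x fun e => h0 k (e ▸ hk)).unique hk hl
  have ne0 : ∀ {x k}, x ∈ S k → x ≠ 0 := fun {x k} hx e => h0 k (e ▸ hx)
  have neg : ∀ x k, x ∈ S k → -x ∈ S k := fun x k hx => by
    rw [← hsym k]; simpa using hx
  refine GRep.false (S := S) ⟨h0, fun x hx => (hex x hx).exists, uniq, neg, ?_, ?_⟩
  · intro i x y hx hy hxy
    have hne : y ≠ x := fun e => ne0 hxy (by rw [e, sub_self])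
    apply hrep.noForbidden 0 y x (ne0 hy).symm hne (ne0 hx).symm
    have e1 : col 0 y = i := uniq y _ _ (by simpa using hcol 0 y (ne0 hy).symm) hy
    have e2 : col y x = i + 1 := uniq _ _ _ (hcol y x hne) hxy
    have e3 : col 0 x = i := uniq x _ _ (by simpa using hcol 0 x (ne0 hx).symm) hx
    rw [e1, e2, e3]
    refine ⟨i, ?_⟩
    clear * -
    revert i
    decide
  · intro k s t z hz hf
    have e1 : col 0 z = k := uniq z _ _ (by simpa using hcol 0 z (ne0 hz).symm) hz
    obtain ⟨w, w0, wz, hs, ht⟩ := hrep.mandatory 0 z (ne0 hz).symm s t (e1 ▸ hf)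
    refine ⟨w, ?_, z - w, ?_, by abel⟩
    · rw [← hs]; simpa using hcol 0 w w0.symm
    · rw [← ht]; exact hcol w z wz

end Pool.Agent.Results.MP_ef816a_al.NoAbelianRep
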